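import Mathlib
import Pool.Agent.H923R2.FZ.Stubs1

/-! POSI: the chain (helper896). -/

set_option autoImplicit false

noncomputable section

namespace Pool.Agent.H923R2.FZ.T_POSI

open Pool.Agent.H923R2.FP Pool.Agent.H923R2.FZ

variable {B : Type} [CStarAlgebra B] {τ : B →ₗ[ℂ] ℂ}

/-- conjugation -/
def cj (u : unitary B) (x : B) : B := (u : B) * x * star (u : B)

theorem cj_mul (u : unitary B) (x y : B) : cj u x * cj u y = cj u (x * y) := by
  unfold cj
  have h : star (u : B) * (u : B) = 1 := Unitary.coe_star_mul_self u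
  calc (u : B) * x * star (u : B) * ((u : B) * y * star (u : B))
      = (u : B) * x * (star (u : B) * (u : B)) * y * star (u : B) := by simp only [mul_assoc]
    _ = (u : B) * (x * y) * star (u : B) := by rw [h, mul_one]; simp only [mul_assoc]

theorem cj_cj (w u : unitary B) (x : B) : cj w (cj u x) = cj (w * u) x := by
  unfold cj
  have h : ((w * u : unitary B) : B) = (w : B) * (u : B) := rfl
  rw [h, star_mul]
  simp only [mul_assoc]

theorem cj_one (x : B) : cj (1 : unitary B) x = x := by
  unfold cj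
  have h : ((1 : unitary B) : B) = 1 := rfl
  rw [h, star_one, one_mul, mul_one]

theorem cj_tau (h : FTS τ) (u : unitary B) (x : B) : τ (cj u x) = τ x := by
  unfold cj
  rw [h.comm, ← mul_assoc, Unitary.coe_star_mul_self u, one_mul]

theorem cj_pc (u : unitary B) (x : B) (h : PC x) : PC (cj u x) := by
  refine ⟨?_, ?_⟩
  · unfold cj
    have h1 := h.1.star_eq
    rw [IsSelfAdjoint, star_mul, star_mul, star_star, h1, mul_assoc]
  · unfold cj
    have h2 : spectrum ℝ ((u : B) * x * star (u : B)) = spectrum ℝ x :=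
      Unitary.spectrum_star_right_conjugate
    rw [h2]
    exact h.2

theorem pc_star {x : B} (h : PC x) : star x = x := h.1.star_eq

theorem pc_zero : PC (0 : B) := by
  refine ⟨IsSelfAdjoint.zero B, ?_⟩
  rcases subsingleton_or_nontrivial B with hB | hB
  · intro t ht
    have : spectrum ℝ (0 : B) = ∅ := spectrum.of_subsingleton 0
    rw [this] at ht
    exact absurd ht (Set.notMem_empty t)
  · rw [spectrum.zero_eq]
    intro t ht
    rw [Set.mem_singleton_iff] at ht
    rw [ht]
    simp

theorem chi_cont (L j : ℕ) : Continuous (chi L j) := by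
  unfold chi
  fun_prop

theorem chi_mul (L i k : ℕ) (h : i < k) (t : ℝ) : chi L k t * chi L i t = chi L i t := by
  unfold chi
  have hik : (i : ℝ) + 1 ≤ k := by exact_mod_cast h
  rcases le_or_gt ((L : ℝ) * t - L + i + 1) 0 with h1 | h1
  · have h2 : max 0 (min 1 ((L : ℝ) * t - L + i + 1)) = 0 :=
      max_eq_left ((min_le_right _ _).trans h1)
    rw [h2, mul_zero]
  · have h2 : min 1 ((L : ℝ) * t - L + k + 1) = 1 := min_eq_left (by linarith)
    rw [h2, max_eq_right zero_le_one, one_mul]

theorem cfc_chi_mul (L i k : ℕ) (h : i < k) (a : B) (ha : PC a) :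
    cfc (chi L k) a * cfc (chi L i) a = cfc (chi L i) a := by
  rw [← cfc_mul (chi L k) (chi L i) a (chi_cont L k).continuousOn (chi_cont L i).continuousOn]
  refine cfc_congr fun t _ => ?_
  exact chi_mul L i k h t

theorem pc_chi (L j : ℕ) (a : B) (ha : PC a) : PC (cfc (chi L j) a) := by
  refine ⟨cfc_predicate _ _, ?_⟩
  rw [cfc_map_spectrum (chi L j) a ha.1 (chi_cont L j).continuousOn]
  rintro _ ⟨t, _, rfl⟩
  unfold chi
  exact ⟨le_max_left _ _, max_le zero_le_one (min_le_left _ _)⟩

theorem cj_cfc (L j : ℕ) (u : unitary B) (a : B) (ha : PC a) :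
    cfc (chi L j) ((u : B) * a * star (u : B)) = cj u (cfc (chi L j) a) := by
  have h := StarAlgHomClass.map_cfc (S := ℂ) (R := ℝ) (p := IsSelfAdjoint) (q := IsSelfAdjoint)
    (Unitary.conjStarAlgAut ℂ B u) (chi L j) a (chi_cont L j).continuousOn
    (by
      have : (⇑(Unitary.conjStarAlgAut ℂ B u) : B → B) = fun x => (u : B) * x * star (u : B) := by
        funext x; rfl
      rw [this]
      fun_prop) ha.1 (cj_pc u a ha).1
  exact h.symm

/-- the elements of the chain -/
def E (R : ℕ → ℕ → B) (W : ℕ → unitary B) (i e : ℕ) : B := cj (W (i % 2)) (R (i % 2) e)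

theorem E_F1 {R : ℕ → ℕ → B} (hF1 : ∀ p i k, i < k → R p k * R p i = R p i)
    (W : ℕ → unitary B) (i e e' : ℕ) (h : e < e') : E R W i e' * E R W i e = E R W i e := by
  unfold E
  rw [cj_mul, hF1 _ _ _ h]

theorem E_F1' {R : ℕ → ℕ → B} (hF1 : ∀ p i k, i < k → R p k * R p i = R p i)
    (W : ℕ → unitary B) (i i' e e' : ℕ) (hi : i % 2 = i' % 2) (h : e < e') :
    E R W i e' * E R W i' e = E R W i' e := by
  unfold E
  rw [hi, cj_mul, hF1 _ _ _ h]

theorem E_pc {R : ℕ → ℕ → B} (hF2 : ∀ p e, PC (R p e)) (W : ℕ → unitary B) (i e : ℕ) :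
    PC (E R W i e) := cj_pc _ _ (hF2 _ _)

/-- the modified unitaries -/
def up (W : ℕ → unitary B) (r : ℕ) (w : unitary B) : ℕ → unitary B :=
  fun p => if p = r % 2 then w * W p else W p

theorem E_up_eq (R : ℕ → ℕ → B) (W : ℕ → unitary B) (r : ℕ) (w : unitary B) (i e : ℕ)
    (h : i % 2 = r % 2) : E R (up W r w) i e = cj w (E R W i e) := by
  unfold E up
  rw [if_pos h, cj_cj]

theorem E_up_ne (R : ℕ → ℕ → B) (W : ℕ → unitary B) (r : ℕ) (w : unitary B) (i e : ℕ)
    (h : i % 2 ≠ r % 2) : E R (up W r w) i e = E R W i e := by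
  unfold E up
  rw [if_neg h]

theorem step (hτ : FTS τ) (hMV : MV τ) (L : ℕ) (R : ℕ → ℕ → B) (m : ℕ → ℝ)
    (hF1 : ∀ p i k, i < k → R p k * R p i = R p i) (hF2 : ∀ p e, PC (R p e))
    (hF3 : ∀ p e, (τ (R p e)).re = m e) (hm : ∀ j, j + 1 < L → m j < m (j + 1))
    (r : ℕ) (hr : 6 * (r + 1) + 1 ≤ L) (W : ℕ → unitary B) (c c' : B) (hc : PC c) (hc' : PC c')
    (hcc : c * c' = c') (hgc : E R W r (6 * r + 1) * c = c)
    (hkc : E R W (r + 1) (6 * r + 4) * c = c) :
    ∃ w : unitary B, (w : B) * c' = c' ∧ c' * (w : B) = c' ∧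
      E R (up W r w) (r + 1) (6 * r + 6) * E R (up W r w) r (6 * r + 1) =
        E R (up W r w) r (6 * r + 1) := by
  obtain ⟨w, hw1, hw2, hw3⟩ := hMV c' c (E R W r (6 * r + 1)) (E R W r (6 * r + 2))
    (E R W r (6 * r + 3)) (E R W (r + 1) (6 * r + 4)) (E R W (r + 1) (6 * r + 5))
    (E R W (r + 1) (6 * r + 6)) hc' hc (E_pc hF2 _ _ _) (E_pc hF2 _ _ _) (E_pc hF2 _ _ _)
    (E_pc hF2 _ _ _) (E_pc hF2 _ _ _) (E_pc hF2 _ _ _) hcc hgc
    (E_F1 hF1 _ _ _ _ (by omega)) (E_F1 hF1 _ _ _ _ (by omega)) hkc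
    (E_F1 hF1 _ _ _ _ (by omega)) (E_F1 hF1 _ _ _ _ (by omega)) (by
      unfold E
      rw [cj_tau hτ, cj_tau hτ, hF3, hF3]
      exact hm _ (by omega))
  refine ⟨w, hw1, hw2, ?_⟩
  rw [E_up_ne R W r w (r + 1) _ (by omega), E_up_eq R W r w r _ rfl]
  unfold cj
  rw [← mul_assoc, hw3]

theorem chain (hτ : FTS τ) (hMV : MV τ) (L : ℕ) (R : ℕ → ℕ → B) (m : ℕ → ℝ)
    (hF1 : ∀ p i k, i < k → R p k * R p i = R p i) (hF2 : ∀ p e, PC (R p e))
    (hF3 : ∀ p e, (τ (R p e)).re = m e) (hm : ∀ j, j + 1 < L → m j < m (j + 1)) :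
    ∀ r : ℕ, 6 * r + 1 ≤ L → ∃ W : ℕ → unitary B,
      (∀ i, i + 2 ≤ r → E R W (i + 1) (6 * (i + 1)) * E R W i (6 * i) = E R W i (6 * i)) ∧
      (∀ i, i + 1 = r → E R W (i + 1) (6 * (i + 1)) * E R W i (6 * i + 1) =
        E R W i (6 * i + 1)) := by
  intro r
  induction r with
  | zero =>
    intro _
    exact ⟨fun _ => 1, fun i hi => absurd hi (by omega), fun i hi => absurd hi (by omega)⟩
  | succ r ih =>
    intro hL
    obtain ⟨W, hA, hP⟩ := ih (by omega)
    rcases Nat.eq_zero_or_pos r with hr0 | hr0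
    · subst hr0
      obtain ⟨w, -, -, hw3⟩ := step hτ hMV L R m hF1 hF2 hF3 hm 0 hL W 0 0 pc_zero pc_zero
        (mul_zero _) (mul_zero _) (mul_zero _)
      refine ⟨up W 0 w, fun i hi => absurd hi (by omega), fun i hi => ?_⟩
      have : i = 0 := by omega
      subst this
      exact hw3
    · obtain ⟨s, rfl⟩ : ∃ s, r = s + 1 := ⟨r - 1, by omega⟩
      have hpre := hP s rfl
      have hcc : E R W s (6 * s + 1) * E R W s (6 * s) = E R W s (6 * s) :=
        E_F1 hF1 _ _ _ _ (by omega)
      have hgc : E R W (s + 1) (6 * (s + 1) + 1) * E R W s (6 * s + 1) = E R W s (6 * s + 1) := by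
        calc E R W (s + 1) (6 * (s + 1) + 1) * E R W s (6 * s + 1)
            = E R W (s + 1) (6 * (s + 1) + 1) *
              (E R W (s + 1) (6 * (s + 1)) * E R W s (6 * s + 1)) := by rw [hpre]
          _ = (E R W (s + 1) (6 * (s + 1) + 1) * E R W (s + 1) (6 * (s + 1))) *
              E R W s (6 * s + 1) := by rw [mul_assoc]
          _ = E R W (s + 1) (6 * (s + 1)) * E R W s (6 * s + 1) := by
            rw [E_F1 hF1 _ _ _ _ (by omega)]
          _ = E R W s (6 * s + 1) := hpre
      have hkc : E R W (s + 1 + 1) (6 * (s + 1) + 4) * E R W s (6 * s + 1) =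
          E R W s (6 * s + 1) := E_F1' hF1 _ _ _ _ _ (by omega) (by omega)
      obtain ⟨w, hw1, hw2, hw3⟩ := step hτ hMV L R m hF1 hF2 hF3 hm (s + 1) hL W
        (E R W s (6 * s + 1)) (E R W s (6 * s)) (E_pc hF2 _ _ _) (E_pc hF2 _ _ _) hcc hgc hkc
      -- the elements `D i`
      have hD : ∀ n i, i + n + 1 = s →
          E R W s (6 * s) * E R W i (6 * i) = E R W i (6 * i) := by
        intro n
        induction n with
        | zero =>
          intro i hi
          have : s = i + 1 := by omega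
          subst this
          exact hA i (by omega)
        | succ n ihn =>
          intro i hi
          have h1 := ihn (i + 1) (by omega)
          have h2 := hA i (by omega)
          calc E R W s (6 * s) * E R W i (6 * i)
              = E R W s (6 * s) * (E R W (i + 1) (6 * (i + 1)) * E R W i (6 * i)) := by rw [h2]
            _ = (E R W s (6 * s) * E R W (i + 1) (6 * (i + 1))) * E R W i (6 * i) := by
              rw [mul_assoc]
            _ = E R W (i + 1) (6 * (i + 1)) * E R W i (6 * i) := by rw [h1]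
            _ = E R W i (6 * i) := h2
      have hsw1 : star (w : B) * E R W s (6 * s) = E R W s (6 * s) := by
        have h := congrArg star hw2
        rwa [star_mul, pc_star (E_pc hF2 W s _)] at h
      have hsw2 : E R W s (6 * s) * star (w : B) = E R W s (6 * s) := by
        have h := congrArg star hw1
        rwa [star_mul, pc_star (E_pc hF2 W s _)] at h
      have hfix : ∀ i, i < s → cj w (E R W i (6 * i)) = E R W i (6 * i) := by
        intro i hi
        have h1 := hD (s - 1 - i) i (by omega)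
        have h2 : E R W i (6 * i) * E R W s (6 * s) = E R W i (6 * i) := by
          have h := congrArg star h1
          rwa [star_mul, pc_star (E_pc hF2 W s _), pc_star (E_pc hF2 W i _)] at h
        have h3 : (w : B) * E R W i (6 * i) = E R W i (6 * i) := by
          calc (w : B) * E R W i (6 * i) = (w : B) * (E R W s (6 * s) * E R W i (6 * i)) := by
                rw [h1]
            _ = ((w : B) * E R W s (6 * s)) * E R W i (6 * i) := by rw [mul_assoc]
            _ = E R W i (6 * i) := by rw [hw1, h1]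
        have h4 : E R W i (6 * i) * star (w : B) = E R W i (6 * i) := by
          calc E R W i (6 * i) * star (w : B)
              = (E R W i (6 * i) * E R W s (6 * s)) * star (w : B) := by rw [h2]
            _ = E R W i (6 * i) * (E R W s (6 * s) * star (w : B)) := by rw [mul_assoc]
            _ = E R W i (6 * i) := by rw [hsw2, h2]
        unfold cj
        rw [h3, h4]
      have hD' : ∀ i, i ≤ s → E R (up W (s + 1) w) i (6 * i) = E R W i (6 * i) := by
        intro i hi
        by_cases hpar : i % 2 = (s + 1) % 2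
        · rw [E_up_eq R W (s + 1) w i _ hpar]
          exact hfix i (by
            rcases hi.eq_or_lt with h | h
            · omega
            · exact h)
        · exact E_up_ne R W (s + 1) w i _ hpar
      refine ⟨up W (s + 1) w, fun i hi => ?_, fun i hi => ?_⟩
      · rcases (show i ≤ s by omega).eq_or_lt with h | h
        · subst h
          rw [hD' i le_rfl, E_up_eq R W (i + 1) w (i + 1) _ rfl]
          have h5 : E R W (i + 1) (6 * (i + 1)) * E R W i (6 * i) = E R W i (6 * i) := by
            calc E R W (i + 1) (6 * (i + 1)) * E R W i (6 * i)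
                = E R W (i + 1) (6 * (i + 1)) * (E R W i (6 * i + 1) * E R W i (6 * i)) := by
                  rw [hcc]
              _ = (E R W (i + 1) (6 * (i + 1)) * E R W i (6 * i + 1)) * E R W i (6 * i) := by
                rw [mul_assoc]
              _ = E R W i (6 * i) := by rw [hpre, hcc]
          unfold cj
          calc (w : B) * E R W (i + 1) (6 * (i + 1)) * star (w : B) * E R W i (6 * i)
              = (w : B) * (E R W (i + 1) (6 * (i + 1)) * (star (w : B) * E R W i (6 * i))) := by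
                simp only [mul_assoc]
            _ = E R W i (6 * i) := by rw [hsw1, h5, hw1]
        · rw [hD' i h.le, hD' (i + 1) h]
          exact hA i (by omega)
      · have : i = s + 1 := by omega
        subst this
        exact hw3

theorem fin (L : ℕ) (R : ℕ → ℕ → B) (hF1 : ∀ p i k, i < k → R p k * R p i = R p i)
    (r : ℕ) (W : ℕ → unitary B)
    (hA : ∀ i, i + 2 ≤ r → E R W (i + 1) (6 * (i + 1)) * E R W i (6 * i) = E R W i (6 * i))
    (hP : ∀ i, i + 1 = r → E R W (i + 1) (6 * (i + 1)) * E R W i (6 * i + 1) =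
        E R W i (6 * i + 1))
    (i j : ℕ) (hi : i + 1 ≤ r) (h1 : j ≤ 6 * i) (h2 : 6 * i + 6 < j + 20) :
    E R W (i + 1) (j + 20) * E R W i j = E R W i j := by
  have hA' : E R W (i + 1) (6 * (i + 1)) * E R W i (6 * i) = E R W i (6 * i) := by
    rcases hi.eq_or_lt with h | h
    · have hp := hP i h
      have hcc : E R W i (6 * i + 1) * E R W i (6 * i) = E R W i (6 * i) :=
        E_F1 hF1 _ _ _ _ (by omega)
      calc E R W (i + 1) (6 * (i + 1)) * E R W i (6 * i)
          = E R W (i + 1) (6 * (i + 1)) * (E R W i (6 * i + 1) * E R W i (6 * i)) := by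
            rw [hcc]
        _ = (E R W (i + 1) (6 * (i + 1)) * E R W i (6 * i + 1)) * E R W i (6 * i) := by
          rw [mul_assoc]
        _ = E R W i (6 * i) := by rw [hp, hcc]
    · exact hA i (by omega)
  have h3 : E R W (i + 1) (6 * (i + 1)) * E R W i j = E R W i j := by
    rcases h1.eq_or_lt with h | h
    · rw [h]; exact hA'
    · have h4 : E R W i (6 * i) * E R W i j = E R W i j := E_F1 hF1 _ _ _ _ h
      calc E R W (i + 1) (6 * (i + 1)) * E R W i j
          = E R W (i + 1) (6 * (i + 1)) * (E R W i (6 * i) * E R W i j) := by rw [h4]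
        _ = (E R W (i + 1) (6 * (i + 1)) * E R W i (6 * i)) * E R W i j := by rw [mul_assoc]
        _ = E R W i j := by rw [hA', h4]
  have h5 : E R W (i + 1) (j + 20) * E R W (i + 1) (6 * (i + 1)) =
      E R W (i + 1) (6 * (i + 1)) := E_F1 hF1 _ _ _ _ (by omega)
  calc E R W (i + 1) (j + 20) * E R W i j
      = E R W (i + 1) (j + 20) * (E R W (i + 1) (6 * (i + 1)) * E R W i j) := by rw [h3]
    _ = (E R W (i + 1) (j + 20) * E R W (i + 1) (6 * (i + 1))) * E R W i j := by rw [mul_assoc]
    _ = E R W i j := by rw [h5, h3]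

theorem t_POSI : S_POSI := by
  intro B _ τ hτ hMV a b L ha hb hL hSL hm
  set R : ℕ → ℕ → B := fun p e => if p = 0 then cfc (chi L e) a else cfc (chi L e) b with hR
  have hF1 : ∀ p i k, i < k → R p k * R p i = R p i := by
    intro p i k hik
    simp only [hR]
    split_ifs
    · exact cfc_chi_mul L i k hik a ha
    · exact cfc_chi_mul L i k hik b hb
  have hF2 : ∀ p e, PC (R p e) := by
    intro p e
    simp only [hR]
    split_ifs
    · exact pc_chi L e a ha
    · exact pc_chi L e b hb
  have hF3 : ∀ p e, (τ (R p e)).re = (τ (cfc (chi L e) a)).re := by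
    intro p e
    simp only [hR]
    split_ifs
    · rfl
    · rw [hSL _ (chi_cont L e)]
  obtain ⟨W, hA, hP⟩ := chain hτ hMV L R (fun e => (τ (cfc (chi L e) a)).re) hF1 hF2 hF3 hm
    ((L - 1) / 6) (by omega)
  have ev : ∀ i e, i % 2 = 0 → E R W i e = cfc (chi L e) ((W 0 : B) * a * star (W 0 : B)) := by
    intro i e hi
    rw [cj_cfc L e (W 0) a ha]
    unfold E
    rw [hi]
    simp only [hR, if_true]
  have od : ∀ i e, i % 2 = 1 → E R W i e = cfc (chi L e) ((W 1 : B) * b * star (W 1 : B)) := by
    intro i e hi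
    rw [cj_cfc L e (W 1) b hb]
    unfold E
    rw [hi]
    simp only [hR, one_ne_zero, if_false]
  refine ⟨W 0, W 1, fun j hj => ⟨?_, ?_⟩⟩
  · have h := fin L R hF1 ((L - 1) / 6) W hA hP (2 * ((j + 11) / 12)) j (by omega) (by omega)
      (by omega)
    rwa [od (2 * ((j + 11) / 12) + 1) _ (by omega), ev (2 * ((j + 11) / 12)) _ (by omega)] at h
  · have h := fin L R hF1 ((L - 1) / 6) W hA hP (2 * ((j + 5) / 12) + 1) j (by omega) (by omega)
      (by omega)
    rwa [ev (2 * ((j + 5) / 12) + 1 + 1) _ (by omega),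
      od (2 * ((j + 5) / 12) + 1) _ (by omega)] at h

end Pool.Agent.H923R2.FZ.T_POSI
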